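import Pool.Agent.R592.Ba.Defs

namespace Pool.Agent.R172.Ba

open Cardinal Set Pool.Agent.R592.Ba

theorem ls_trans {f g h : ℕ → ℕ} (h1 : LeStar f g) (h2 : LeStar g h) : LeStar f h := by
  unfold LeStar at *
  filter_upwards [h1, h2] with n a b
  exact a.trans b

theorem unb_univ : ¬ ∃ g : ℕ → ℕ, ∀ f ∈ (univ : Set (ℕ → ℕ)), LeStar f g := by
  rintro ⟨g, hg⟩
  have h := hg (fun n => g n + 1) (mem_univ _)
  unfold LeStar at h
  obtain ⟨n, hn⟩ := h.exists
  exact absurd hn (by simp)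

theorem bset_ne : {κ : Cardinal.{0} | ∃ F : Set (ℕ → ℕ), #F = κ ∧ ¬ ∃ g, ∀ f ∈ F, LeStar f g}.Nonempty :=
  ⟨_, univ, rfl, unb_univ⟩

theorem bnum_mem : ∃ F : Set (ℕ → ℕ), #F = bnum ∧ ¬ ∃ g, ∀ f ∈ F, LeStar f g :=
  csInf_mem bset_ne

theorem bnum_le_c : bnum ≤ 𝔠 := by
  have h : bnum ≤ #(univ : Set (ℕ → ℕ)) := csInf_le' ⟨univ, rfl, unb_univ⟩
  rw [mk_univ] at h
  simpa using h

theorem bd_small (ι : Type) (F : ι → ℕ → ℕ) (h : #ι < bnum) : ∃ g, ∀ i, LeStar (F i) g := by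
  have h1 : #(range F) < bnum := lt_of_le_of_lt mk_range_le h
  have h2 := notMem_of_lt_csInf' h1
  by_contra hcon
  apply h2
  refine ⟨range F, rfl, ?_⟩
  rintro ⟨g, hg⟩
  exact hcon ⟨g, fun i => hg _ ⟨i, rfl⟩⟩

theorem bd_ctble (f : ℕ → ℕ → ℕ) : ∃ g, ∀ i, LeStar (f i) g := by
  refine ⟨fun n => (Finset.range (n + 1)).sup (fun i => f i n), fun i => ?_⟩
  unfold LeStar
  filter_upwards [Filter.eventually_ge_atTop i] with n hn
  exact Finset.le_sup (f := fun i => f i n) (Finset.mem_range.2 (by omega))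

theorem aleph0_lt_bnum : ℵ₀ < bnum := by
  by_contra hcon
  push Not at hcon
  obtain ⟨F, hF, hu⟩ := bnum_mem
  rw [← hF] at hcon
  have hc : F.Countable := Cardinal.le_aleph0_iff_set_countable.1 hcon
  rcases F.eq_empty_or_nonempty with rfl | hne
  · exact hu ⟨fun _ => 0, by simp⟩
  · obtain ⟨f, hf⟩ := hc.exists_eq_range hne
    obtain ⟨g, hg⟩ := bd_ctble f
    apply hu
    refine ⟨g, fun h hh => ?_⟩
    rw [hf] at hh
    obtain ⟨i, rfl⟩ := hh
    exact hg i

theorem mk_option_lt {a : Type} {κ : Cardinal.{0}} (hκ : ℵ₀ ≤ κ) (h : #a < κ) : #(Option a) < κ := by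
  rw [mk_option]
  exact add_lt_of_lt hκ h (one_lt_aleph0.trans_le hκ)

theorem bnum_cof : bnum.ord.cof = bnum := by
  apply le_antisymm (Ordinal.cof_ord_le _)
  by_contra hcon
  push Not at hcon
  obtain ⟨F, hF, hu⟩ := bnum_mem
  have hT : #(bnum.ord.ToType) = bnum := mk_ord_toType _
  obtain ⟨e⟩ : Nonempty (bnum.ord.ToType ≃ F) := Cardinal.eq.1 (hT.trans hF.symm)
  obtain ⟨S, hS, hSc⟩ := Order.exists_cof_eq bnum.ord.ToType
  rw [Ordinal.cof_toType] at hSc
  have h1 : ∀ s : S, ∃ g, ∀ i : Option (Iio s.1),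
      LeStar (match i with | none => (e s.1 : ℕ → ℕ) | some t => (e t.1 : ℕ → ℕ)) g := by
    intro s
    apply bd_small
    exact mk_option_lt aleph0_lt_bnum.le (mk_Iio_toType_ord_lt s.1)
  choose g hg using h1
  obtain ⟨G, hG⟩ := bd_small S g (by rw [hSc]; exact hcon)
  apply hu
  refine ⟨G, fun f hf => ?_⟩
  obtain ⟨s, hs, hst⟩ := hS (e.symm ⟨f, hf⟩)
  have h2 : LeStar f (g ⟨s, hs⟩) := by
    rcases hst.lt_or_eq with hlt | heq
    · have := hg ⟨s, hs⟩ (some ⟨e.symm ⟨f, hf⟩, hlt⟩)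
      simpa using this
    · have := hg ⟨s, hs⟩ none
      have e1 : (e s : ℕ → ℕ) = f := by rw [← heq]; simp
      simpa [e1] using this
  exact ls_trans h2 (hG ⟨s, hs⟩)

theorem bFacts : BFacts := ⟨aleph0_lt_bnum, bnum_le_c, bnum_cof, bd_small⟩

/-- A scale-like family. -/
theorem exists_scale (h : bnum.ord.ToType → ℕ → ℕ) : ∃ f : bnum.ord.ToType → ℕ → ℕ,
    (∀ a, LeStar (h a) (f a)) ∧ ∀ a b, b < a → LeStar (f b) (f a) := by
  have key : ∀ (a : bnum.ord.ToType) (F : Iio a → ℕ → ℕ), ∃ g, LeStar (h a) g ∧ ∀ b, LeStar (F b) g := by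
    intro a F
    obtain ⟨g, hg⟩ := bd_small (Option (Iio a)) (fun i => match i with | none => h a | some t => F t)
      (mk_option_lt aleph0_lt_bnum.le (mk_Iio_toType_ord_lt a))
    exact ⟨g, hg none, fun b => hg (some b)⟩
  choose G hG1 hG2 using key
  let f : bnum.ord.ToType → ℕ → ℕ :=
    (wellFounded_lt (α := bnum.ord.ToType)).fix (fun a ih => G a (fun b => ih b.1 b.2))
  have hf : ∀ a, f a = G a (fun b => f b.1) := by
    intro a
    exact (wellFounded_lt (α := bnum.ord.ToType)).fix_eq _ a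
  refine ⟨f, fun a => ?_, fun a b hab => ?_⟩
  · rw [hf a]; exact hG1 a _
  · rw [hf a]; exact hG2 a (fun b => f b.1) ⟨b, hab⟩

theorem cofB : CofB := by
  intro κ hcof hκ
  obtain ⟨F, hF, hu⟩ := bnum_mem
  have hB : #(bnum.ord.ToType) = bnum := mk_ord_toType _
  obtain ⟨e0⟩ : Nonempty (bnum.ord.ToType ≃ F) := Cardinal.eq.1 (hB.trans hF.symm)
  obtain ⟨f, hf1, hf2⟩ := exists_scale (fun a => (e0 a : ℕ → ℕ))
  have hf3 : ∀ g : ℕ → ℕ, ∃ a, ∀ b, a ≤ b → ¬ LeStar (f b) g := by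
    intro g
    by_contra hcon
    push Not at hcon
    apply hu
    refine ⟨g, fun x hx => ?_⟩
    obtain ⟨b, hab, hb⟩ := hcon (e0.symm ⟨x, hx⟩)
    have h1 := hf1 (e0.symm ⟨x, hx⟩)
    simp only [Equiv.apply_symm_apply] at h1
    rcases hab.lt_or_eq with hlt | heq
    · exact ls_trans h1 (ls_trans (hf2 _ _ hlt) hb)
    · rw [← heq] at hb
      exact ls_trans h1 hb
  -- the index set
  have hT : #(κ.ord.ToType) = κ := mk_ord_toType _
  obtain ⟨S, hS, hSc⟩ := Order.exists_cof_eq κ.ord.ToType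
  rw [Ordinal.cof_toType, hcof] at hSc
  obtain ⟨k0⟩ : Nonempty (bnum.ord.ToType ≃ S) := Cardinal.eq.1 (hB.trans hSc.symm)
  let k : bnum.ord.ToType → κ.ord.ToType := fun a => (k0 a).1
  have hk : ∀ i, ∃ a, i ≤ k a := by
    intro i
    obtain ⟨s, hs, his⟩ := hS i
    refine ⟨k0.symm ⟨s, hs⟩, ?_⟩
    simpa [k] using his
  choose c hc using hk
  obtain ⟨x⟩ : Nonempty (κ.ord.ToType ↪ (ℕ → Bool)) := by
    rw [← Cardinal.le_def, hT]
    simpa using hκ
  let e : κ.ord.ToType → W := fun i n => 2 * f (c i) n + (if x i n then 1 else 0)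
  have he : Function.Injective e := by
    intro i j hij
    apply x.injective
    funext n
    have := congrFun hij n
    simp only [e] at this
    cases hi : x i n <;> cases hj : x j n <;> simp [hi, hj] at this ⊢ <;> omega
  refine ⟨range e, by rw [mk_range_eq e he, hT], fun g => ?_⟩
  obtain ⟨a, ha⟩ := hf3 g
  -- the set of values `k b` with `b < a` is not cofinal
  have hnc : ¬ IsCofinal (k '' Iio a) := by
    intro hcon
    have h1 : Order.cof κ.ord.ToType ≤ #(k '' Iio a) := Order.cof_le hcon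
    rw [Ordinal.cof_toType, hcof] at h1
    have h2 : #(k '' Iio a) < bnum := lt_of_le_of_lt mk_image_le (mk_Iio_toType_ord_lt a)
    exact absurd h1 (not_le.2 h2)
  have ht : ∃ t : κ.ord.ToType, ∀ b, b < a → k b < t := by
    by_contra hcon
    push Not at hcon
    apply hnc
    intro t
    obtain ⟨b, hb, hbt⟩ := hcon t
    exact ⟨k b, ⟨b, hb, rfl⟩, hbt⟩
  obtain ⟨t, ht⟩ := ht
  have hsub : {f' ∈ range e | ∀ n, f' n ≤ g n} ⊆ e '' Iio t := by
    rintro _ ⟨⟨i, rfl⟩, hi⟩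
    refine ⟨i, ?_, rfl⟩
    have h1 : LeStar (f (c i)) g := by
      refine Filter.Eventually.of_forall fun n => ?_
      have := hi n
      simp only [e] at this
      omega
    have h2 : c i < a := by
      by_contra h3
      push Not at h3
      exact ha _ h3 h1
    exact lt_of_le_of_lt (hc i) (ht _ h2)
  exact lt_of_le_of_lt ((mk_le_mk_of_subset hsub).trans mk_image_le) (mk_Iio_toType_ord_lt t)

end Pool.Agent.R172.Ba
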